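import Pool.Agent.Helper79.LH.Lin

/-! LIN, second part: copies of the point over the line, the tangent hyperplane. -/

set_option autoImplicit false

namespace Pool.Agent.Helper79.LH

open Finset Filter Topology Pool.Agent.Helper69.RK Pool.Agent.Helper31.EC

noncomputable section

open Sp QS Pool.Agent.Helper80.MX Pool.Agent.Helper79.LB Pool.Agent.Helper46.LIN

variable {S : Sp} {l : LD S} {D : ℕ} {q : MvPolynomial (Fin 4) (QS S)}

/-- the functions of the line -/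
def lf (l : LD S) (q : MvPolynomial (Fin 4) (QS S)) : (Fin 4 ⊕ Fin 4) ⊕ q.support → QS S :=
  Sum.elim (Sum.elim (bs l) (xi l)) (fun m => q.coeff m.1)

theorem lf_le (hl : LH l) (hq : LF l D q) : vd (lf l q) 1 ≤ l.iL := by
  rw [vd_le]
  rintro ((k | k) | m)
  · exact bsL hl k
  · exact xiL hl k
  · exact (hq.const m.1).le.trans bot_le

section cop

variable {d : ℕ} (C : CQ S (lf l q) d)

theorem kbs (i : Fin (d + 1)) (k : Fin 4) : (C.p i).qs (bs l k) = (C.p 0).qs (bs l k) := C.com i 0 (Sum.inl (Sum.inl k))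

theorem kxi (i : Fin (d + 1)) (k : Fin 4) : (C.p i).qs (xi l k) = (C.p 0).qs (xi l k) := C.com i 0 (Sum.inl (Sum.inr k))

theorem kq (i : Fin (d + 1)) (m : Fin 4 →₀ ℕ) : (C.p i).qs (q.coeff m) = (C.p 0).qs (q.coeff m) := by
  by_cases hm : m ∈ q.support
  · exact C.com i 0 (Sum.inr ⟨m, hm⟩)
  · rw [MvPolynomial.notMem_support_iff.mp hm, map_zero, map_zero]

/-- the form vanishes on the plane of every copy, in the coordinates of the line -/
theorem planeJ (hl : LH l) (hq : LF l D q) {iz : QS S} (hiz : iz * qd l q 3 = 1) (j : Fin (d + 1)) :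
    PV ((C.p 0).qs.comp (RingHom.id _)) (fun k => (C.p 0).qs (bs l k)) (fun k => (C.p 0).qs (xi l k))
      (fun k => (C.p j).qs (pn l q iz k)) q := by
  refine PV.move ((planeP hl hq hiz).map (C.p j).qs) (t := (C.p j).qs l.t) (x := (C.p j).qs l.x) ?_ ?_ ?_
  · exact fun m => (kq C j m).symm
  · intro k
    rw [← kbs C j k, ← kxi C j k, ← map_mul, ← map_add, ← P_eq hl k]
  · intro k
    rw [← kxi C j k, ← map_mul, ← map_add, ← xi_eq hl hq hiz k]

theorem qdJ (i : Fin (d + 1)) (k : Fin 4) : MvPolynomial.eval₂ ((C.p 0).qs.comp (RingHom.id _))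
    (fun k => (C.p i).qs (l.P k)) (MvPolynomial.pderiv k q) = (C.p i).qs (qd l q k) := by
  rw [eval₂_pderiv_congr (φ := (C.p 0).qs.comp (RingHom.id _)) (φ' := (C.p i).qs.comp (RingHom.id _))
    fun m => (kq C i m).symm]
  unfold qd
  exact (MvPolynomial.eval₂_comp_left (C.p i).qs (RingHom.id _) l.P _).symm

/-- gradients at a copy of the point -/
theorem gradJ (hl : LH l) {i : Fin (d + 1)} {n : Fin 4 → QS C.W}
    (h : MvPolynomial.eval₂ ((Polynomial.C : QS C.W →+* Polynomial (QS C.W)).comp ((C.p 0).qs.comp (RingHom.id _)))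
      (fun k => Polynomial.C ((C.p 0).qs (bs l k)) + Polynomial.C ((C.p i).qs l.t) *
        Polynomial.C ((C.p 0).qs (xi l k)) + Polynomial.X * Polynomial.C (n k)) q = 0) :
    n 0 * (C.p i).qs (qd l q 0) + n 1 * (C.p i).qs (qd l q 1) + n 2 * (C.p i).qs (qd l q 2) +
      n 3 * (C.p i).qs (qd l q 3) = 0 := by
  have h1 : lin ((C.p 0).qs.comp (RingHom.id _)) (fun k => (C.p i).qs (l.P k)) n q = 0 := by
    refine Eq.trans ?_ h
    unfold lin
    congr 1
    funext k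
    show Polynomial.C ((C.p i).qs (l.P k)) + Polynomial.X * Polynomial.C (n k) = _
    rw [P_eq hl k, map_add, map_mul, kbs C i k, kxi C i k, map_add, map_mul]
  have h2 := lin_grad h1
  rw [Fin.sum_univ_four, qdJ C i 0, qdJ C i 1, qdJ C i 2, qdJ C i 3] at h2
  exact h2

end cop

/-- LIN -/
theorem st_lin : ST_LIN := by
  intro S l hl D q hq hu
  obtain ⟨iz, hiz'⟩ := hu.exists_left_inv
  have hiz : iz * qd l q 3 = 1 := hiz'
  obtain ⟨l2, hl2⟩ : ∃ l2, l2 = -(iz * qd l q 1) := ⟨_, rfl⟩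
  obtain ⟨l3, hl3⟩ : ∃ l3, l3 = -(iz * qd l q 2) := ⟨_, rfl⟩
  have hizB : dg iz 1 ≤ l.B := (dg_inv_le hiz le_rfl).trans (qdB hl hq 3)
  have m : ∀ {A : S.L} {f : QS S}, dg f 1 ≤ A → f ∈ Kn S 1 le_rfl A := fun h => h
  have l2B : dg l2 1 ≤ l.B := by
    rw [hl2]
    exact neg_mem (mul_mem (m hizB) (m (qdB hl hq 1)))
  have l3B : dg l3 1 ≤ l.B := by
    rw [hl3]
    exact neg_mem (mul_mem (m hizB) (m (qdB hl hq 2)))
  obtain ⟨C⟩ := exists_CQ (lf l q) (D + 1)
  have e0 := congrArg (C.p 0).qs hiz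
  rw [map_mul, map_one] at e0
  -- the normals of the planes
  have hn : ∀ j, (fun k => (C.p j).qs (pn l q iz k)) = fun k =>
      (![0, 1, 0, (C.p 0).qs l2] : Fin 4 → QS C.W) k + (C.p j).qs l.k1 * (![0, 0, 1, (C.p 0).qs l3] : Fin 4 → QS C.W) k := by
    intro j
    have h1 := (planeJ C hl hq hiz j).eval (Polynomial.C : QS C.W →+* Polynomial (QS C.W))
      (Polynomial.C ((C.p 0).qs l.t)) Polynomial.X
    have h2 := gradJ C hl (i := 0) (n := fun k => (C.p j).qs (pn l q iz k)) h1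
    have h3 : (C.p j).qs 0 * (C.p 0).qs (qd l q 0) + (C.p j).qs 1 * (C.p 0).qs (qd l q 1) +
      (C.p j).qs l.k1 * (C.p 0).qs (qd l q 2) + (C.p j).qs (w1 l q iz) * (C.p 0).qs (qd l q 3) = 0 := h2
    rw [map_zero, map_one] at h3
    funext k
    fin_cases k
    · show (C.p j).qs 0 = 0 + (C.p j).qs l.k1 * 0
      rw [map_zero]
      ring
    · show (C.p j).qs 1 = 1 + (C.p j).qs l.k1 * 0
      rw [map_one]
      ring
    · show (C.p j).qs l.k1 = 0 + (C.p j).qs l.k1 * 1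
      ring
    · show (C.p j).qs (w1 l q iz) = (C.p 0).qs l2 + (C.p j).qs l.k1 * (C.p 0).qs l3
      rw [hl2, hl3, map_neg, map_neg, map_mul, map_mul]
      linear_combination (C.p 0).qs iz * h3 - (C.p j).qs (w1 l q iz) * e0
  -- the solid
  have solid := fun τ ρ σ : Polynomial (QS C.W) => plane_solid (D + 1) ((C.p 0).qs.comp (RingHom.id _)) q (hq.deg.trans (Nat.le_succ D))
    (fun k => (C.p 0).qs (bs l k)) (fun k => (C.p 0).qs (xi l k)) (![0, 1, 0, (C.p 0).qs l2] : Fin 4 → QS C.W)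
    (![0, 0, 1, (C.p 0).qs l3] : Fin 4 → QS C.W) (fun j => (C.p (Fin.ofNat (D + 2) j)).qs l.k1)
    (fun i hi j hj hij => by
      apply ksep hl (lf_le hl hq) C
      intro h3
      apply hij
      have h4 := congrArg Fin.val h3
      rw [Fin.val_ofNat, Fin.val_ofNat, Nat.mod_eq_of_lt (by omega), Nat.mod_eq_of_lt (by omega)] at h4
      exact h4)
    (fun j _ => by
      have h1 := planeJ C hl hq hiz (Fin.ofNat (D + 2) j)
      rw [hn] at h1
      exact h1) (Polynomial.C : QS C.W →+* Polynomial (QS C.W)) τ ρ σ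
  have e1 := congrArg (C.p 1).qs hiz
  rw [map_mul, map_one] at e1
  -- the tangent hyperplane at another point
  have c2 : (C.p 0).qs l2 = (C.p 1).qs l2 := by
    have h1 := solid (Polynomial.C ((C.p 1).qs l.t)) Polynomial.X 0
    have h2 := gradJ C hl (i := 1) (n := ![0, 1, 0, (C.p 0).qs l2]) (by
      refine Eq.trans ?_ h1
      congr 1
      funext k
      ring)
    have h3 : (0 : QS C.W) * (C.p 1).qs (qd l q 0) + 1 * (C.p 1).qs (qd l q 1) +
      0 * (C.p 1).qs (qd l q 2) + (C.p 0).qs l2 * (C.p 1).qs (qd l q 3) = 0 := h2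
    have h4 : (C.p 1).qs l2 = -((C.p 1).qs iz * (C.p 1).qs (qd l q 1)) := by rw [hl2, map_neg, map_mul]
    rw [h4]
    linear_combination (C.p 1).qs iz * h3 - (C.p 0).qs l2 * e1
  have c3 : (C.p 0).qs l3 = (C.p 1).qs l3 := by
    have h1 := solid (Polynomial.C ((C.p 1).qs l.t)) 0 Polynomial.X
    have h2 := gradJ C hl (i := 1) (n := ![0, 0, 1, (C.p 0).qs l3]) (by
      refine Eq.trans ?_ h1
      congr 1
      funext k
      ring)
    have h3 : (0 : QS C.W) * (C.p 1).qs (qd l q 0) + 0 * (C.p 1).qs (qd l q 1) +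
      1 * (C.p 1).qs (qd l q 2) + (C.p 0).qs l3 * (C.p 1).qs (qd l q 3) = 0 := h2
    have h4 : (C.p 1).qs l3 = -((C.p 1).qs iz * (C.p 1).qs (qd l q 2)) := by rw [hl3, map_neg, map_mul]
    rw [h4]
    linear_combination (C.p 1).qs iz * h3 - (C.p 0).qs l3 * e1
  have key : ∀ g : QS S, (C.p 0).qs g = (C.p 1).qs g → dg g 1 ≤ l.iL := by
    intro g hg
    have h1 : (C.p 0).map (dg g 1) ≤ C.v := by
      apply le_of_markov (A := (C.p 0).map (dg g 1)) (B := (C.p 1).map (dg g 1)) (C := C.v) le_sup_left ?_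
        (C.I_two (by rw [Ne, Fin.ext_iff]; simp) _ _)
      rw [← (C.p 0).qs_dg, ← (C.p 1).qs_dg, hg]
      exact le_sup_left
    have h2 : (C.p 0).map (dg g 1) ≤ (C.p 0).map (vd (lf l q) 1) := h1
    rw [Pj.map_le] at h2
    exact h2.trans (lf_le hl hq)
  have l2L := key l2 c2
  have l3L := key l3 c3
  -- the other coefficients
  obtain ⟨l1, hl1⟩ : ∃ l1, l1 = l.v - l.x * l2 - l.X * l3 := ⟨_, rfl⟩
  have hl1' : l1 = -(iz * qd l q 0) := by
    rw [hl1, hl2, hl3]
    linear_combination iz * gradP hl hq - l.v * hiz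
  have l1L : dg l1 1 ≤ l.iL := by
    rw [hl1]
    exact sub_mem (sub_mem (m hl.Lv) (mul_mem (m hl.Lx) (m l2L))) (mul_mem (m hl.LX) (m l3L))
  have l1B : dg l1 1 ≤ l.B := by
    rw [hl1']
    exact neg_mem (mul_mem (m hizB) (m (qdB hl hq 0)))
  obtain ⟨l0, hl0⟩ : ∃ l0, l0 = l.e - l2 * l.a - l3 * l.c := ⟨_, rfl⟩
  have hz : l.z = l0 + l1 * l.t + l2 * l.y + l3 * l.R := by
    rw [hl0, hl1, hl.hz, hl.hy, hl.hR]
    ring
  have l0L : dg l0 1 ≤ l.iL := by
    rw [hl0]
    exact sub_mem (sub_mem (m hl.Le) (mul_mem (m l2L) (m hl.La))) (mul_mem (m l3L) (m hl.Lc))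
  have l0B : dg l0 1 ≤ l.B := by
    have e : l0 = l.z - l1 * l.t - l2 * l.y - l3 * l.R := by rw [hz]; ring
    rw [e]
    exact sub_mem (sub_mem (sub_mem (m hl.Bz) (mul_mem (m l1B) (m hl.Bt))) (mul_mem (m l2B) (m hl.By)))
      (mul_mem (m l3B) (m hl.BR))
  refine ⟨![l0, l1, l2, l3], fun i => ?_, hz⟩
  fin_cases i
  · exact conn' hl l0L l0B
  · exact conn' hl l1L l1B
  · exact conn' hl l2L l2B
  · exact conn' hl l3L l3B

end

end Pool.Agent.Helper79.LH
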