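import Mathlib

/-! Polynomials over a commutative ring which vanish on lines of a plane and on planes of a solid; division by
`z - l`; polynomials modulo an ideal. -/

set_option autoImplicit false

namespace Pool.Agent.Helper79.LH

open MvPolynomial

noncomputable section

/-- a polynomial of degree `≤ D` with `D + 1` roots whose differences are not zero divisors vanishes -/
theorem roots_zero {B : Type*} [CommRing B] (x : ℕ → B) : ∀ (D : ℕ)
    (_ : ∀ i ≤ D, ∀ j ≤ D, i ≠ j → x i - x j ∈ nonZeroDivisors B) (g : Polynomial B) (_ : g.natDegree ≤ D)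
    (_ : ∀ i ≤ D, g.eval (x i) = 0), g = 0 := by
  intro D
  induction D with
  | zero =>
    intro _ g hg h
    have h1 := h 0 le_rfl
    rw [Polynomial.eq_C_of_natDegree_le_zero hg] at h1 ⊢
    rw [Polynomial.eval_C] at h1
    rw [h1, Polynomial.C_0]
  | succ D ih =>
    intro hx g hg h
    have h1 : (Polynomial.X - Polynomial.C (x (D + 1))) ∣ g := Polynomial.dvd_iff_isRoot.mpr (h (D + 1) le_rfl)
    obtain ⟨g1, hg1⟩ := h1
    rcases subsingleton_or_nontrivial B with hs | hn
    · exact Subsingleton.elim _ _
    have hd : g1.natDegree ≤ D := by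
      by_cases h0 : g1 = 0
      · rw [h0]; simp
      have h2 : ((Polynomial.X - Polynomial.C (x (D + 1))) * g1).natDegree = 1 + g1.natDegree := by
        rw [Polynomial.Monic.natDegree_mul' (Polynomial.monic_X_sub_C _) h0, Polynomial.natDegree_X_sub_C]
      rw [← hg1] at h2
      omega
    have h3 : g1 = 0 := by
      apply ih (fun i hi j hj => hx i (by omega) j (by omega)) g1 hd
      intro i hi
      have h4 := h i (by omega)
      rw [hg1, Polynomial.eval_mul, Polynomial.eval_sub, Polynomial.eval_X, Polynomial.eval_C, mul_comm] at h4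
      exact (mem_nonZeroDivisors_iff_right.mp (hx i (by omega) (D + 1) le_rfl (by omega))) _ h4
    rw [hg1, h3, mul_zero]

section lin

variable {A R : Type*} [CommRing A] [CommRing R] {N : ℕ}

/-- the restriction of a polynomial to a line -/
def lin (φ : A →+* R) (c v : Fin N → R) (q : MvPolynomial (Fin N) A) : Polynomial R :=
  eval₂ (Polynomial.C.comp φ) (fun k => Polynomial.C (c k) + Polynomial.X * Polynomial.C (v k)) q

theorem lin_add (φ : A →+* R) (c v : Fin N → R) (p q : MvPolynomial (Fin N) A) :
    lin φ c v (p + q) = lin φ c v p + lin φ c v q := eval₂_add _ _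

theorem lin_mul (φ : A →+* R) (c v : Fin N → R) (p q : MvPolynomial (Fin N) A) :
    lin φ c v (p * q) = lin φ c v p * lin φ c v q := eval₂_mul _ _

theorem lin_C (φ : A →+* R) (c v : Fin N → R) (x : A) : lin φ c v (C x) = Polynomial.C (φ x) := eval₂_C _ _ _

theorem lin_X (φ : A →+* R) (c v : Fin N → R) (k : Fin N) :
    lin φ c v (X k) = Polynomial.C (c k) + Polynomial.X * Polynomial.C (v k) := eval₂_X _ _ _

theorem eval_lin (φ : A →+* R) (c v : Fin N → R) (s : R) (q : MvPolynomial (Fin N) A) :
    (lin φ c v q).eval s = eval₂ φ (fun k => c k + s * v k) q := by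
  unfold lin
  induction q using MvPolynomial.induction_on with
  | C x => simp
  | add p q hp hq => rw [eval₂_add, eval₂_add, Polynomial.eval_add, hp, hq]
  | mul_X p k hp =>
    rw [eval₂_mul, eval₂_mul, Polynomial.eval_mul, hp]
    simp
    ring

theorem eval2_lin {R' : Type*} [CommRing R'] (φ : A →+* R) (ψ : R →+* R') (c v : Fin N → R) (s : R')
    (q : MvPolynomial (Fin N) A) :
    (lin φ c v q).eval₂ ψ s = eval₂ (ψ.comp φ) (fun k => ψ (c k) + s * ψ (v k)) q := by
  unfold lin
  induction q using MvPolynomial.induction_on with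
  | C x => simp
  | add p q hp hq => rw [eval₂_add, eval₂_add, Polynomial.eval₂_add, hp, hq]
  | mul_X p k hp =>
    rw [eval₂_mul, eval₂_mul, Polynomial.eval₂_mul, hp]
    simp
    ring

theorem lin_monomial_natDegree_le (φ : A →+* R) (c v : Fin N → R) (m : Fin N →₀ ℕ) (x : A) :
    (lin φ c v (monomial m x)).natDegree ≤ m.sum fun _ e => e := by
  unfold lin
  rw [eval₂_monomial]
  refine (Polynomial.natDegree_mul_le).trans ?_
  have h1 : ((Polynomial.C.comp φ) x).natDegree = 0 := Polynomial.natDegree_C _
  rw [h1, zero_add]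
  unfold Finsupp.prod Finsupp.sum
  refine (Polynomial.natDegree_prod_le _ _).trans (Finset.sum_le_sum fun k _ => ?_)
  refine Polynomial.natDegree_pow_le.trans ?_
  have h2 : (Polynomial.C (c k) + Polynomial.X * Polynomial.C (v k)).natDegree ≤ 1 := by
    refine (Polynomial.natDegree_add_le _ _).trans (max_le (by simp) ?_)
    refine Polynomial.natDegree_mul_le.trans ?_
    rw [Polynomial.natDegree_C, add_zero]
    exact Polynomial.natDegree_X_le
  calc m k * _ ≤ m k * 1 := Nat.mul_le_mul_left _ h2
    _ = m k := mul_one _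

theorem natDegree_lin (φ : A →+* R) (c v : Fin N → R) (q : MvPolynomial (Fin N) A) :
    (lin φ c v q).natDegree ≤ q.totalDegree := by
  have h1 : lin φ c v q = ∑ m ∈ q.support, lin φ c v (monomial m (q.coeff m)) := by
    conv_lhs => rw [q.as_sum]
    unfold lin
    exact map_sum (eval₂Hom (Polynomial.C.comp φ) fun k => Polynomial.C (c k) + Polynomial.X * Polynomial.C (v k)) _ _
  rw [h1]
  refine Polynomial.natDegree_sum_le_of_forall_le _ _ fun m hm => ?_
  exact (lin_monomial_natDegree_le φ c v m _).trans (le_totalDegree hm)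

/-- derivative along the line -/
theorem derivative_lin (φ : A →+* R) (c v : Fin N → R) (q : MvPolynomial (Fin N) A) :
    (lin φ c v q).derivative = ∑ k, Polynomial.C (v k) * lin φ c v (pderiv k q) := by
  induction q using MvPolynomial.induction_on with
  | C x => simp [lin]
  | add p q hp hq =>
    rw [lin_add, Polynomial.derivative_add, hp, hq, ← Finset.sum_add_distrib]
    refine Finset.sum_congr rfl fun k _ => ?_
    rw [map_add, lin_add]
    ring
  | mul_X p j hp =>
    rw [lin_mul, Polynomial.derivative_mul, hp, lin_X, Polynomial.derivative_add, Polynomial.derivative_C, zero_add,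
      Polynomial.derivative_mul, Polynomial.derivative_X, one_mul, Polynomial.derivative_C, mul_zero, add_zero]
    have h1 : ∀ k, lin φ c v (pderiv k (p * X j)) = lin φ c v (pderiv k p) * (Polynomial.C (c j) +
        Polynomial.X * Polynomial.C (v j)) + (if k = j then lin φ c v p else 0) := by
      intro k
      rw [Derivation.leibniz, pderiv_X, smul_eq_mul, smul_eq_mul, lin_add, lin_mul, lin_mul, lin_X]
      by_cases h : k = j
      · subst h
        rw [Pi.single_eq_same, if_pos rfl]
        have : lin φ c v (1 : MvPolynomial (Fin N) A) = 1 := by unfold lin; simp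
        rw [this]
        ring
      · rw [Pi.single_eq_of_ne (fun h' => h h'.symm), if_neg h]
        have : lin φ c v (0 : MvPolynomial (Fin N) A) = 0 := by unfold lin; simp
        rw [this]
        ring
    have h2 : ∀ k, Polynomial.C (v k) * lin φ c v (pderiv k (p * X j)) = (Polynomial.C (v k) *
        lin φ c v (pderiv k p)) * (Polynomial.C (c j) + Polynomial.X * Polynomial.C (v j)) +
        (if k = j then Polynomial.C (v k) * lin φ c v p else 0) := by
      intro k
      rw [h1]
      split_ifs <;> ring
    rw [Finset.sum_congr rfl (fun k _ => h2 k), Finset.sum_add_distrib, ← Finset.sum_mul, Finset.sum_ite_eq',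
      if_pos (Finset.mem_univ j)]
    ring

/-- SMALL ON LINES: a polynomial which vanishes on `D + 1` lines through a point of a plane vanishes on the plane -/
theorem line_plane (D : ℕ) (φ : A →+* R) (q : MvPolynomial (Fin N) A) (hq : q.totalDegree ≤ D) (c e v : Fin N → R)
    (r : ℕ → R) (hr : ∀ i ≤ D, ∀ j ≤ D, i ≠ j → IsUnit (r i - r j))
    (h : ∀ i ≤ D, lin φ c (fun k => e k + r i * v k) q = 0) :
    lin (Polynomial.C.comp φ) (fun k => Polynomial.C (c k) + Polynomial.X * Polynomial.C (e k))
      (fun k => Polynomial.C (v k)) q = 0 := by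
  apply roots_zero (fun i => Polynomial.X * Polynomial.C (r i)) D
  · intro i hi j hj hij
    have h1 : (Polynomial.X * Polynomial.C (r i) - Polynomial.X * Polynomial.C (r j) : Polynomial R) =
        Polynomial.X * Polynomial.C (r i - r j) := by rw [map_sub]; ring
    rw [h1]
    apply mul_mem (Polynomial.monic_X.mem_nonZeroDivisors)
    exact ((hr i hi j hj hij).map Polynomial.C).mem_nonZeroDivisors
  · exact (natDegree_lin _ _ _ q).trans hq
  · intro i hi
    rw [eval_lin]
    refine Eq.trans ?_ (h i hi)
    unfold lin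
    congr 1
    funext k
    rw [map_add, map_mul]
    ring

/-- the same, evaluated -/
theorem line_plane' (D : ℕ) (φ : A →+* R) (q : MvPolynomial (Fin N) A) (hq : q.totalDegree ≤ D) (c e v : Fin N → R)
    (r : ℕ → R) (hr : ∀ i ≤ D, ∀ j ≤ D, i ≠ j → IsUnit (r i - r j))
    (h : ∀ i ≤ D, lin φ c (fun k => e k + r i * v k) q = 0) {R' : Type*} [CommRing R'] (ψ : R →+* R') (τ σ : R') :
    eval₂ (ψ.comp φ) (fun k => ψ (c k) + τ * ψ (e k) + σ * ψ (v k)) q = 0 := by
  have h1 := congrArg (Polynomial.eval₂ (Polynomial.eval₂RingHom ψ τ) σ) (line_plane D φ q hq c e v r hr h)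
  rw [eval2_lin, Polynomial.eval₂_zero] at h1
  refine Eq.trans ?_ h1
  congr 1
  · ext x
    simp
  · funext k
    simp
    ring

/-- SMALL ON PLANES: a polynomial which vanishes on `D + 1` planes through a line of a solid vanishes on the solid -/
theorem plane_solid (D : ℕ) (φ : A →+* R) (q : MvPolynomial (Fin N) A) (hq : q.totalDegree ≤ D)
    (c d n m : Fin N → R) (r : ℕ → R) (hr : ∀ i ≤ D, ∀ j ≤ D, i ≠ j → IsUnit (r i - r j))
    (h : ∀ i ≤ D, lin (Polynomial.C.comp φ) (fun k => Polynomial.C (c k) + Polynomial.X * Polynomial.C (d k))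
      (fun k => Polynomial.C (n k + r i * m k)) q = 0) {R' : Type*} [CommRing R'] (ψ : R →+* R') (τ ρ σ : R') :
    eval₂ (ψ.comp φ) (fun k => ψ (c k) + τ * ψ (d k) + ρ * ψ (n k) + σ * ψ (m k)) q = 0 := by
  have h1 := line_plane' D (Polynomial.C.comp φ) q hq
    (fun k => Polynomial.C (c k) + Polynomial.X * Polynomial.C (d k)) (fun k => Polynomial.C (n k))
    (fun k => Polynomial.C (m k)) (fun i => Polynomial.C (r i)) (fun i hi j hj hij => by
      rw [← map_sub]
      exact (hr i hi j hj hij).map Polynomial.C) (fun i hi => by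
      refine Eq.trans ?_ (h i hi)
      congr 1
      funext k
      rw [map_add, map_mul]) (Polynomial.eval₂RingHom ψ τ) ρ σ
  refine Eq.trans ?_ h1
  congr 1
  · ext x
    simp
  · funext k
    simp
    ring

end lin

section van

variable {A : Type} [CommRing A]

/-- all coefficients lie in an ideal -/
def Van {σ : Type} (J : Ideal A) (F : MvPolynomial σ A) : Prop := ∀ m, F.coeff m ∈ J

theorem van_iff_map {σ : Type} (J : Ideal A) (F : MvPolynomial σ A) :
    Van J F ↔ map (Ideal.Quotient.mk J) F = 0 := by
  unfold Van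
  rw [MvPolynomial.ext_iff]
  simp only [coeff_map, coeff_zero, Ideal.Quotient.eq_zero_iff_mem]

theorem van_iff {σ : Type} (J : Ideal A) (F : MvPolynomial σ A) :
    Van J F ↔ ∀ (R' : Type) [CommRing R'] (ψ : A ⧸ J →+* R') (M : σ → R'),
      eval₂ (ψ.comp (Ideal.Quotient.mk J)) M F = 0 := by
  rw [van_iff_map]
  constructor
  · intro h R' _ ψ M
    rw [← eval₂_map, h, eval₂_zero]
  · intro h
    have h1 := h (MvPolynomial σ (A ⧸ J)) C X
    rw [← eval₂_map] at h1
    rwa [eval₂_eta] at h1

theorem Van.eval_mem {σ : Type} {J : Ideal A} {F : MvPolynomial σ A} (h : Van J F) (x : σ → A) : eval x F ∈ J := by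
  rw [eval_eq]
  exact J.sum_mem fun m _ => J.mul_mem_right _ (h m)

theorem Van.mono {σ : Type} {J K : Ideal A} (hJK : J ≤ K) {F : MvPolynomial σ A} (h : Van J F) : Van K F :=
  fun m => hJK (h m)

theorem Van.add {σ : Type} {J : Ideal A} {F G : MvPolynomial σ A} (hF : Van J F) (hG : Van J G) : Van J (F + G) :=
  fun m => by rw [coeff_add]; exact J.add_mem (hF m) (hG m)

theorem Van.mul_left {σ : Type} {J : Ideal A} {F : MvPolynomial σ A} (hF : Van J F) (G : MvPolynomial σ A) :
    Van J (G * F) := by
  rw [van_iff_map] at hF ⊢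
  rw [map_mul, hF, mul_zero]

end van

end

end Pool.Agent.Helper79.LH
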