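import Pool.Agent.Helper79.LH.Alg

/-! Polynomials which vanish on lines and planes: change of rings, gradients, shifts. -/

set_option autoImplicit false

namespace Pool.Agent.Helper79.LH

open MvPolynomial

noncomputable section

section lin2

variable {A R R' : Type*} [CommRing A] [CommRing R] [CommRing R'] {N : ℕ}

theorem lin_map (φ : A →+* R) (ψ : R →+* R') (c v : Fin N → R) (q : MvPolynomial (Fin N) A) :
    (lin φ c v q).map ψ = lin (ψ.comp φ) (fun k => ψ (c k)) (fun k => ψ (v k)) q := by
  unfold lin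
  induction q using MvPolynomial.induction_on with
  | C x => simp
  | add p q hp hq => rw [eval₂_add, eval₂_add, Polynomial.map_add, hp, hq]
  | mul_X p k hp =>
    rw [eval₂_mul, eval₂_mul, Polynomial.map_mul, hp]
    simp

theorem lin_of_map (φ : A →+* R) (c v : Fin N → R) (q : MvPolynomial (Fin N) A) :
    lin φ c v q = lin (RingHom.id R) c v (map φ q) := by
  unfold lin
  rw [eval₂_map]
  rfl

theorem lin_congr {φ φ' : A →+* R} {q : MvPolynomial (Fin N) A} (h : ∀ m, φ (q.coeff m) = φ' (q.coeff m))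
    (c v : Fin N → R) : lin φ c v q = lin φ' c v q := by
  rw [lin_of_map φ, lin_of_map φ']
  congr 1
  ext m
  rw [coeff_map, coeff_map, h]

theorem eval₂_congr' {φ φ' : A →+* R} {q : MvPolynomial (Fin N) A} (h : ∀ m, φ (q.coeff m) = φ' (q.coeff m))
    (c : Fin N → R) : eval₂ φ c q = eval₂ φ' c q := by
  have h1 : map φ q = map φ' q := by
    ext m
    rw [coeff_map, coeff_map, h]
  rw [← eval_map, ← eval_map, h1]

theorem eval₂_pderiv_congr {φ φ' : A →+* R} {q : MvPolynomial (Fin N) A} (h : ∀ m, φ (q.coeff m) = φ' (q.coeff m))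
    (c : Fin N → R) (i : Fin N) : eval₂ φ c (pderiv i q) = eval₂ φ' c (pderiv i q) := by
  have h1 : map φ q = map φ' q := by
    ext m
    rw [coeff_map, coeff_map, h]
  rw [← eval_map, ← eval_map, ← pderiv_map, ← pderiv_map, h1]

/-- the gradient is orthogonal to the line -/
theorem lin_grad {φ : A →+* R} {c v : Fin N → R} {q : MvPolynomial (Fin N) A} (h : lin φ c v q = 0) :
    ∑ k, v k * eval₂ φ c (pderiv k q) = 0 := by
  have h1 := congrArg (Polynomial.eval 0) (congrArg Polynomial.derivative h)
  rw [derivative_lin, Polynomial.eval_finsetSum, Polynomial.derivative_zero, Polynomial.eval_zero] at h1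
  refine Eq.trans (Finset.sum_congr rfl fun k _ => ?_) h1
  rw [Polynomial.eval_mul, Polynomial.eval_C, eval_lin]
  congr 2
  funext j
  ring

theorem lin_shift {φ : A →+* R} {c v : Fin N → R} {q : MvPolynomial (Fin N) A} (h : lin φ c v q = 0) (s : R) :
    lin φ (fun k => c k + s * v k) v q = 0 := by
  have h1 := congrArg (Polynomial.eval₂ Polynomial.C (Polynomial.X + Polynomial.C s)) h
  rw [eval2_lin, Polynomial.eval₂_zero] at h1
  unfold lin
  refine Eq.trans ?_ h1
  congr 1
  funext k
  rw [map_add, map_mul]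
  ring

/-- a polynomial vanishes on the plane through `c` spanned by `e` and `n` -/
def PV (φ : A →+* R) (c e n : Fin N → R) (q : MvPolynomial (Fin N) A) : Prop :=
  lin (Polynomial.C.comp φ) (fun k => Polynomial.C (c k) + Polynomial.X * Polynomial.C (e k))
    (fun k => Polynomial.C (n k)) q = 0

theorem PV.eval {φ : A →+* R} {c e n : Fin N → R} {q : MvPolynomial (Fin N) A} (h : PV φ c e n q)
    {R'' : Type*} [CommRing R''] (ψ : R →+* R'') (τ σ : R'') :
    eval₂ (ψ.comp φ) (fun k => ψ (c k) + τ * ψ (e k) + σ * ψ (n k)) q = 0 := by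
  have h1 := congrArg (Polynomial.eval₂ (Polynomial.eval₂RingHom ψ τ) σ) h
  rw [eval2_lin, Polynomial.eval₂_zero] at h1
  refine Eq.trans ?_ h1
  congr 1
  · ext x
    simp
  · funext k
    simp
    ring

theorem PV.of_eval {φ : A →+* R} {c e n : Fin N → R} {q : MvPolynomial (Fin N) A}
    (h : eval₂ (((Polynomial.C : Polynomial R →+* _).comp Polynomial.C).comp φ) (fun k =>
      Polynomial.C (Polynomial.C (c k)) + Polynomial.C Polynomial.X * Polynomial.C (Polynomial.C (e k)) +
      Polynomial.X * Polynomial.C (Polynomial.C (n k))) q = 0) : PV φ c e n q := by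
  unfold PV lin
  refine Eq.trans ?_ h
  congr 1
  funext k
  rw [map_add, map_mul]

/-- descent along an injective homomorphism -/
theorem PV.descend {φ : A →+* R} {ψ : R →+* R'} (hψ : Function.Injective ψ) {c e n : Fin N → R}
    {q : MvPolynomial (Fin N) A} (h : PV (ψ.comp φ) (fun k => ψ (c k)) (fun k => ψ (e k)) (fun k => ψ (n k)) q) :
    PV φ c e n q := by
  have h1 : (lin (Polynomial.C.comp φ) (fun k => Polynomial.C (c k) + Polynomial.X * Polynomial.C (e k))
      (fun k => Polynomial.C (n k)) q).map (Polynomial.mapRingHom ψ) = 0 := by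
    rw [lin_map]
    refine Eq.trans ?_ h
    unfold lin
    congr 1
    · ext x
      simp
    · funext k
      simp
  exact (Polynomial.map_eq_zero_iff (Polynomial.map_injective ψ hψ)).mp h1

/-- lines of a plane -/
theorem PV.line {φ : A →+* R} {c e n : Fin N → R} {q : MvPolynomial (Fin N) A} (h : PV φ c e n q) (s : R) :
    lin φ (fun k => c k + s * e k) n q = 0 := by
  have h1 := h.eval (Polynomial.C : R →+* Polynomial R) (Polynomial.C s) Polynomial.X
  unfold lin
  refine Eq.trans ?_ h1
  congr 1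
  funext k
  rw [map_add, map_mul]

theorem PV.map {φ : A →+* R} {c e n : Fin N → R} {q : MvPolynomial (Fin N) A} (h : PV φ c e n q) (ψ : R →+* R') :
    PV (ψ.comp φ) (fun k => ψ (c k)) (fun k => ψ (e k)) (fun k => ψ (n k)) q := by
  have h1 := congrArg (Polynomial.map (Polynomial.mapRingHom ψ)) h
  rw [lin_map, Polynomial.map_zero] at h1
  refine Eq.trans ?_ h1
  unfold lin
  congr 1
  · ext x
    simp
  · funext k
    simp

theorem move_aux {R : Type*} [CommRing R] {b c e n t x ξ X Y : R} (h1 : c = b + t * ξ) (h2 : ξ = e + x * n) :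
    b + X * ξ + Y * n = c + (X - t) * e + ((X - t) * x + Y) * n := by
  rw [h1, h2]
  ring

/-- other coordinates of the plane, evaluated -/
theorem PV.move_eval {φ φ' : A →+* R} {c e n b ξ : Fin N → R} {q : MvPolynomial (Fin N) A} (h : PV φ c e n q)
    (hφ : ∀ m, φ' (q.coeff m) = φ (q.coeff m)) {t x : R} (hc : ∀ k, c k = b k + t * ξ k)
    (hξ : ∀ k, ξ k = e k + x * n k) {B : Type*} [CommRing B] (ψ : R →+* B) (X Y : B) :
    eval₂ (ψ.comp φ') (fun k => ψ (b k) + X * ψ (ξ k) + Y * ψ (n k)) q = 0 := by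
  have h1 := h.eval ψ (X - ψ t) ((X - ψ t) * ψ x + Y)
  rw [eval₂_congr' (φ := ψ.comp φ') (φ' := ψ.comp φ) fun m => by
      rw [RingHom.comp_apply, RingHom.comp_apply, hφ m]]
  refine Eq.trans ?_ h1
  congr 1
  funext k
  apply move_aux
  · rw [hc k, map_add, map_mul]
  · rw [hξ k, map_add, map_mul]

/-- other coordinates of the plane -/
theorem PV.move {φ φ' : A →+* R} {c e n b ξ : Fin N → R} {q : MvPolynomial (Fin N) A} (h : PV φ c e n q)
    (hφ : ∀ m, φ' (q.coeff m) = φ (q.coeff m)) {t x : R} (hc : ∀ k, c k = b k + t * ξ k)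
    (hξ : ∀ k, ξ k = e k + x * n k) : PV φ' b ξ n q :=
  PV.of_eval (h.move_eval hφ hc hξ ((Polynomial.C : Polynomial R →+* _).comp Polynomial.C)
    (Polynomial.C Polynomial.X) Polynomial.X)

end lin2

end

end Pool.Agent.Helper79.LH
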