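import Pool.Agent.Helper79.LH.Alg2
import Pool.Agent.Helper79.LB.Base
import Pool.Agent.Helper31.EC.Sep

/-! Copies: differences of copies are units; a form that vanishes on the lines of a bush vanishes on their plane. -/

set_option autoImplicit false

namespace Pool.Agent.Helper79.LH

open Finset Filter Topology Pool.Agent.Helper69.RK Pool.Agent.Helper31.EC

noncomputable section

open Sp QS Pool.Agent.Helper80.MX Pool.Agent.Helper79.LB

variable {S : Sp}

/-- what two copies have in common on an event is known to the common information -/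
theorem common_le {ι : Type} [Fintype ι] {f : ι → QS S} {d : ℕ} (C : CQ S f d) {i j : Fin (d + 1)} (hij : i ≠ j)
    (E : ∀ k, (C.W.F k).Ω → Prop) (hE : 0 < ul (C.W.pr E)) {A : S.L} {V : (C.W.rest E).L}
    (h1 : V ≤ restL E hE ((C.p i).map A)) (h2 : V ≤ restL E hE ((C.p j).map A)) : V ≤ restL E hE C.v := by
  have h3 := I_rest_zero E hE (C.I_two hij A A)
  exact le_of_markov (h1.trans le_sup_left) (h2.trans le_sup_left) h3

/-- copies of a function that is nowhere known are separated -/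
theorem sep_cop {ι : Type} [Fintype ι] {f : ι → QS S} {d : ℕ} (C : CQ S f d) {i j : Fin (d + 1)} (hij : i ≠ j)
    {x : QS S} (hx : ∀ (W : Sp) (p : Pj W S) (E : ∀ k, (W.F k).Ω → Prop) (hE : 0 < ul (W.pr E)) (r : ℝ), 0 < r →
      r ≤ 1 → 0 < h (restL E hE (p.map (dg x r))) (restL E hE (p.map (vd f 1)))) :
    IsUnit ((C.p i).qs x - (C.p j).qs x) := by
  by_contra hcon
  obtain ⟨d, hd, E, hE, hsm⟩ := exists_small hcon
  obtain ⟨r, hr⟩ : ∃ r, r = min d 1 := ⟨_, rfl⟩
  have hr0 : 0 < r := by rw [hr]; exact lt_min hd one_pos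
  have hr1 : r ≤ 1 := by rw [hr]; exact min_le_right _ _
  have hrd : r ≤ d := by rw [hr]; exact min_le_left _ _
  have h1 := dg_rest_eq E hE hsm hrd hr1
  have h3 : restL E hE ((C.p i).map (dg x r)) ≤ restL E hE C.v := by
    refine common_le C hij E hE (A := dg x r) le_rfl ?_
    rw [← (C.p i).qs_dg, ← (C.p j).qs_dg, h1]
  have h4 := hx C.W (C.p i) E hE r hr0 hr1
  rw [C.p_v i, h_zero h3] at h4
  exact lt_irrefl _ h4

/-- polynomials in a real variable with known coefficients -/
theorem poly_zero {g : Polynomial (QS S)} {A : S.L} (hg : ∀ m, dg (g.coeff m) 1 ≤ A) {t : QS S}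
    (ht : h (dg t 1) A = 1) (h0 : g.eval t = 0) : g = 0 := by
  have h1 : pe (k := g.natDegree) (fun a => g.coeff a) t = 0 := by
    rw [← h0, Polynomial.eval_eq_sum_range]
    unfold pe
    rw [Fin.sum_univ_eq_sum_range fun a => g.coeff a * t ^ a]
  have h2 : h (dg t 1) (vd (fun a : Fin (g.natDegree + 1) => g.coeff a) 1) = 1 := by
    refine le_antisymm (h_dg_le_one _ _) (ht.ge.trans ?_)
    apply h_anti
    rw [vd_le]
    exact fun i => hg i
  ext m
  rw [Polynomial.coeff_zero]
  rcases Nat.lt_or_ge g.natDegree m with h3 | h3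
  · exact Polynomial.coeff_eq_zero_of_natDegree_lt h3
  · exact real_eq_zero _ t h2 h1 ⟨m, Nat.lt_succ_of_le h3⟩

/-- the coefficients of the restriction to a line -/
theorem lin_coeff {N : ℕ} {A : S.L} {c v : Fin N → QS S} (hc : ∀ k, dg (c k) 1 ≤ A) (hv : ∀ k, dg (v k) 1 ≤ A)
    {q : MvPolynomial (Fin N) (QS S)} (hq : ∀ m, dg (q.coeff m) 1 ≤ A) (m : ℕ) :
    dg ((lin (RingHom.id _) c v q).coeff m) 1 ≤ A := by
  have h1 : lin (RingHom.id _) c v q ∈ (Polynomial.mapRingHom (Kn S 1 le_rfl A).subtype).range := by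
    have hC : ∀ z : QS S, dg z 1 ≤ A → Polynomial.C z ∈ (Polynomial.mapRingHom (Kn S 1 le_rfl A).subtype).range :=
      fun z hz => ⟨Polynomial.C ⟨z, hz⟩, by simp⟩
    have hX : (Polynomial.X : Polynomial (QS S)) ∈ (Polynomial.mapRingHom (Kn S 1 le_rfl A).subtype).range :=
      ⟨Polynomial.X, by simp⟩
    unfold lin
    rw [MvPolynomial.eval₂_eq']
    refine sum_mem fun m _ => mul_mem (hC _ (hq m)) (prod_mem fun i _ => pow_mem ?_ _)
    exact add_mem (hC _ (hc i)) (mul_mem hX (hC _ (hv i)))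
  obtain ⟨g, hg⟩ := h1
  rw [← hg, Polynomial.coe_mapRingHom, Polynomial.coeff_map]
  exact (g.coeff m).2

/-- PLANE: a form which vanishes on the line with direction `e + x n` through `c` vanishes on the plane, if `x` is
nowhere known over the data -/
theorem plane {N : ℕ} {B : S.L} {c e n : Fin N → QS S} {x : QS S} {D : ℕ} {q : MvPolynomial (Fin N) (QS S)}
    (hD : q.totalDegree ≤ D) (hc : ∀ k, dg (c k) 1 ≤ B) (he : ∀ k, dg (e k) 1 ≤ B) (hn : ∀ k, dg (n k) 1 ≤ B)
    (hq : ∀ m, dg (q.coeff m) 1 ≤ B)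
    (hx : ∀ (W : Sp) (p : Pj W S) (E : ∀ k, (W.F k).Ω → Prop) (hE : 0 < ul (W.pr E)) (r : ℝ), 0 < r → r ≤ 1 →
      0 < h (restL E hE (p.map (dg x r))) (restL E hE (p.map B)))
    (hline : lin (RingHom.id _) c (fun k => e k + x * n k) q = 0) : PV (RingHom.id _) c e n q := by
  classical
  obtain ⟨f, hf⟩ : ∃ f : (Fin N ⊕ Fin N) ⊕ (Fin N ⊕ q.support) → QS S,
    f = Sum.elim (Sum.elim c e) (Sum.elim n fun m => q.coeff m.1) := ⟨_, rfl⟩
  have hfB : vd f 1 ≤ B := by
    rw [vd_le, hf]
    rintro ((k | k) | (k | m))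
    · exact hc k
    · exact he k
    · exact hn k
    · exact hq m.1
  obtain ⟨C⟩ := exists_CQ f D
  have fc : ∀ k, f (Sum.inl (Sum.inl k)) = c k := fun k => by rw [hf]; rfl
  have fe : ∀ k, f (Sum.inl (Sum.inr k)) = e k := fun k => by rw [hf]; rfl
  have fn : ∀ k, f (Sum.inr (Sum.inl k)) = n k := fun k => by rw [hf]; rfl
  have fq : ∀ m, f (Sum.inr (Sum.inr m)) = q.coeff m.1 := fun m => by rw [hf]; rfl
  have kc : ∀ i k, (C.p i).qs (c k) = (C.p 0).qs (c k) := fun i k => by
    rw [← fc k]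
    exact C.com i 0 _
  have ke : ∀ i k, (C.p i).qs (e k) = (C.p 0).qs (e k) := fun i k => by
    rw [← fe k]
    exact C.com i 0 _
  have kn : ∀ i k, (C.p i).qs (n k) = (C.p 0).qs (n k) := fun i k => by
    rw [← fn k]
    exact C.com i 0 _
  have kq : ∀ i m, (C.p i).qs (q.coeff m) = (C.p 0).qs (q.coeff m) := fun i m => by
    by_cases hm : m ∈ q.support
    · have h1 := C.com i 0 (Sum.inr (Sum.inr ⟨m, hm⟩))
      rw [fq ⟨m, hm⟩] at h1
      exact h1
    · rw [MvPolynomial.notMem_support_iff.mp hm, map_zero, map_zero]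
  have h1 : ∀ i, lin ((C.p 0).qs.comp (RingHom.id _)) (fun k => (C.p 0).qs (c k))
      (fun k => (C.p 0).qs (e k) + (C.p i).qs x * (C.p 0).qs (n k)) q = 0 := by
    intro i
    have h2 := congrArg (Polynomial.map (C.p i).qs) hline
    rw [lin_map, Polynomial.map_zero] at h2
    refine Eq.trans ?_ h2
    rw [lin_congr (φ := (C.p 0).qs.comp (RingHom.id _)) (φ' := (C.p i).qs.comp (RingHom.id _)) fun m => (kq i m).symm]
    congr 1
    · funext k
      exact (kc i k).symm
    · funext k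
      rw [map_add, map_mul, ke i k, kn i k]
  have h2 := line_plane D ((C.p 0).qs.comp (RingHom.id _)) q hD (fun k => (C.p 0).qs (c k))
    (fun k => (C.p 0).qs (e k)) (fun k => (C.p 0).qs (n k)) (fun i => (C.p (Fin.ofNat (D + 1) i)).qs x)
    (fun i hi j hj hij => by
      apply sep_cop C
      · intro h3
        apply hij
        have h4 := congrArg Fin.val h3
        rw [Fin.val_ofNat, Fin.val_ofNat, Nat.mod_eq_of_lt (by omega), Nat.mod_eq_of_lt (by omega)] at h4
        exact h4
      · intro W p E hE r hr hr'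
        exact (hx W p E hE r hr hr').trans_le (h_anti (restL_mono E hE (p.map_mono hfB))))
    (fun i _ => h1 _)
  exact PV.descend (C.p 0).qs_injective h2

end

end Pool.Agent.Helper79.LH
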