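import Pool.Agent.Helper79.LH.Cop
import Pool.Agent.Helper46.LIN.Def

/-! LIN: a constant form whose `z` derivative at the point is a unit; planar bushes whose slope separates; then the
point lies on a constant hyperplane. -/

set_option autoImplicit false

namespace Pool.Agent.Helper79.LH

open Finset Filter Topology Pool.Agent.Helper69.RK Pool.Agent.Helper31.EC

noncomputable section

open Sp QS Pool.Agent.Helper80.MX Pool.Agent.Helper79.LB Pool.Agent.Helper46.LIN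

theorem pderiv_mem {S : Sp} {σ : Type} {A : S.L} {q : MvPolynomial σ (QS S)} (hq : q ∈ PK A) (i : σ) :
    MvPolynomial.pderiv i q ∈ PK A := by
  classical
  rw [q.as_sum, map_sum]
  refine (PK A).sum_mem fun m _ => ?_
  rw [MvPolynomial.pderiv_monomial]
  exact monomial_mem _ ((Kn S 1 le_rfl A).mul_mem (hq m) (natCast_mem _ _))

/-- labels of the space itself -/
theorem conn' {S : Sp} {l : LD S} (hl : LH l) {V : S.L} (h1 : V ≤ l.iL) (h2 : V ≤ l.B) : V = ⊥ := by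
  have ht : Typ (S := S) (fun _ _ => True) := Typ_true
  have h3 := hl.conn S (Pj.id S) (fun _ _ => True) (ul_pr_typ_pos _ ht) (restL _ (ul_pr_typ_pos _ ht) V)
    (by rw [Pj.id_map]; exact restL_mono _ _ h1) (by rw [Pj.id_map]; exact restL_mono _ _ h2)
  apply le_antisymm _ bot_le
  rw [← restL_le_typ _ ht, h3]
  exact bot_le

/-- the slopes of different points of the line are separated -/
theorem ksep {S : Sp} {l : LD S} (hl : LH l) {ι : Type} [Fintype ι] {f : ι → QS S} (hf : vd f 1 ≤ l.iL) {d : ℕ}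
    (C : CQ S f d) {i j : Fin (d + 1)} (hij : i ≠ j) : IsUnit ((C.p i).qs l.k1 - (C.p j).qs l.k1) := by
  by_contra hcon
  obtain ⟨d, hd, E, hE, hsm⟩ := exists_small hcon
  obtain ⟨r, hr⟩ : ∃ r, r = min d 1 := ⟨_, rfl⟩
  have hr0 : 0 < r := by rw [hr]; exact lt_min hd one_pos
  have hr1 : r ≤ 1 := by rw [hr]; exact min_le_right _ _
  have hrd : r ≤ d := by rw [hr]; exact min_le_left _ _
  have h1 := dg_rest_eq E hE hsm hrd hr1
  rw [(C.p i).qs_dg, (C.p j).qs_dg] at h1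
  obtain ⟨p, hp⟩ : ∃ p, p = C.p i := ⟨_, rfl⟩
  -- the restricted functions
  obtain ⟨ρ, hρ⟩ : ∃ ρ : QS S →+* QS (C.W.rest E), ρ = (QS.rest E hE).comp p.qs := ⟨_, rfl⟩
  have hdg : ∀ (g : QS S) (s : ℝ), dg (ρ g) s = restL E hE (p.map (dg g s)) := fun g s => by
    rw [hρ, ← p.qs_dg, ← QS.rest_dg]
    rfl
  have hr' : ∀ {g : QS S} {A : S.L}, dg g 1 ≤ A → ρ g ∈ Kn (C.W.rest E) r hr1 (restL E hE (p.map A)) := fun {g A} hg => by
    show dg (ρ g) r ≤ _
    rw [hdg]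
    exact restL_mono E hE (p.map_mono ((dg_mono g hr1).trans hg))
  have conn : ∀ g : QS (C.W.rest E), g ∈ Kn (C.W.rest E) r hr1 (restL E hE (p.map l.iL)) →
      g ∈ Kn (C.W.rest E) r hr1 (restL E hE (p.map l.B)) → dg g r = ⊥ := fun g h2 h3 => hl.conn C.W p E hE _ h2 h3
  have k1c : ρ l.k1 ∈ Kn (C.W.rest E) r hr1 ⊥ := by
    show dg (ρ l.k1) r ≤ ⊥
    rw [conn (ρ l.k1) ?_ (hr' hl.Bk1)]
    show dg (ρ l.k1) r ≤ _
    have h2 : restL E hE ((C.p i).map (dg l.k1 r)) ≤ restL E hE C.v :=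
      common_le C hij E hE (A := dg l.k1 r) le_rfl (by rw [h1])
    rw [hdg, hp]
    refine h2.trans ?_
    rw [← C.p_v i]
    exact restL_mono E hE ((C.p i).map_mono hf)
  have up : ∀ {g : QS (C.W.rest E)} (A : (C.W.rest E).L), g ∈ Kn (C.W.rest E) r hr1 ⊥ →
      g ∈ Kn (C.W.rest E) r hr1 A := fun {g} A hg => mem_Kn.mpr (le_trans (mem_Kn.mp hg) bot_le)
  have k0c : ρ l.k0 ∈ Kn (C.W.rest E) r hr1 ⊥ := by
    show dg (ρ l.k0) r ≤ ⊥
    rw [conn (ρ l.k0) ?_ (hr' hl.Bk0)]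
    have e1 : ρ l.k0 = ρ l.X - ρ l.k1 * ρ l.x := by
      rw [hl.hX, map_add, map_mul]
      ring
    rw [e1]
    exact sub_mem (hr' hl.LX) (mul_mem (up _ k1c) (hr' hl.Lx))
  have hg : ρ l.R - ρ l.k0 * ρ l.t - ρ l.k1 * ρ l.y ∈ Kn (C.W.rest E) r hr1 ⊥ := by
    show dg (ρ l.R - ρ l.k0 * ρ l.t - ρ l.k1 * ρ l.y) r ≤ ⊥
    rw [conn _ ?_ ?_]
    · have e1 : ρ l.R - ρ l.k0 * ρ l.t - ρ l.k1 * ρ l.y = ρ l.c - ρ l.k1 * ρ l.a := by
        rw [hl.hR, hl.hX, hl.hy, map_add, map_add, map_mul, map_mul, map_add, map_mul]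
        ring
      rw [e1]
      exact sub_mem (hr' hl.Lc) (mul_mem (up _ k1c) (hr' hl.La))
    · exact sub_mem (sub_mem (hr' hl.BR) (mul_mem (up _ k0c) (hr' hl.Bt))) (mul_mem (up _ k1c) (hr' hl.By))
  -- `R` is known
  have hR : ρ l.R ∈ Kn (C.W.rest E) r hr1 (restL E hE (p.map (dg l.t 1 ⊔ dg l.y 1))) := by
    have e1 : ρ l.R = (ρ l.R - ρ l.k0 * ρ l.t - ρ l.k1 * ρ l.y) + ρ l.k0 * ρ l.t + ρ l.k1 * ρ l.y := by ring
    rw [e1]
    exact add_mem (add_mem (up _ hg) (mul_mem (up _ k0c) (hr' le_sup_left))) (mul_mem (up _ k1c) (hr' le_sup_right))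
  -- contradiction with fullness
  have hRl : Rl ![l.t, l.y, l.R] ⊥ := by
    apply Rl.of_ge
    rw [Fintype.card_fin]
    have h2 := hl.full
    have h3 : dg l.t 1 ⊔ dg l.y 1 ⊔ dg l.R 1 ≤ vd ![l.t, l.y, l.R] 1 :=
      sup_le (sup_le (dg_le_vd ![l.t, l.y, l.R] 1 0) (dg_le_vd ![l.t, l.y, l.R] 1 1)) (dg_le_vd ![l.t, l.y, l.R] 1 2)
    refine le_trans ?_ (h_mono h3)
    rw [h2]
    norm_num
  have hRl2 := (Rl.pull p hRl).rest E hE
  have h4 := hRl2.sub (s := {2}) (t := {0, 1}) (by decide)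
  have h5 : sd (fun i => QS.rest E hE (p.qs (![l.t, l.y, l.R] i))) {2} = dg (ρ l.R) 1 := by
    unfold sd
    rw [Finset.sup_singleton, hρ]
    rfl
  have h6 : restL E hE (p.map (dg l.t 1 ⊔ dg l.y 1)) =
      sd (fun i => QS.rest E hE (p.qs (![l.t, l.y, l.R] i))) {0, 1} := by
    unfold sd
    rw [Finset.sup_insert, Finset.sup_singleton, Pj.map_sup, restL_sup, ← hdg, ← hdg, hρ]
    rfl
  rw [h5, ← h6, Pj.map_bot, restL_bot, sup_bot_eq, Finset.card_singleton, Nat.cast_one] at h4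
  have h7 : dg (ρ l.R) r ≤ restL E hE (p.map (dg l.t 1 ⊔ dg l.y 1)) := hR
  have h8 := h_anti (A := dg (ρ l.R) 1) h7
  have h9 := h_dg_dg (ρ l.R) hr1
  linarith

section main

variable {S : Sp} {l : LD S}

/-- base of the line -/
def bs (l : LD S) : Fin 4 → QS S := ![0, l.a, l.c, l.e]
/-- direction of the line -/
def xi (l : LD S) : Fin 4 → QS S := ![1, l.x, l.X, l.v]

theorem P_eq (hl : LH l) (k : Fin 4) : l.P k = bs l k + l.t * xi l k := by
  have h1 := hl.hy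
  have h2 := hl.hR
  have h3 := hl.hz
  fin_cases k
  · show l.t = 0 + l.t * 1
    ring
  · exact h1
  · exact h2
  · exact h3

/-- derivatives at the point -/
def qd (l : LD S) (q : MvPolynomial (Fin 4) (QS S)) (i : Fin 4) : QS S :=
  MvPolynomial.eval l.P (MvPolynomial.pderiv i q)

variable {D : ℕ} {q : MvPolynomial (Fin 4) (QS S)}

theorem PB (hl : LH l) (k : Fin 4) : dg (l.P k) 1 ≤ l.B := by
  fin_cases k
  · exact hl.Bt
  · exact hl.By
  · exact hl.BR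
  · exact hl.Bz

theorem bsL (hl : LH l) (k : Fin 4) : dg (bs l k) 1 ≤ l.iL := by
  fin_cases k
  · exact (Kn S 1 le_rfl l.iL).zero_mem
  · exact hl.La
  · exact hl.Lc
  · exact hl.Le

theorem xiL (hl : LH l) (k : Fin 4) : dg (xi l k) 1 ≤ l.iL := by
  fin_cases k
  · exact (Kn S 1 le_rfl l.iL).one_mem
  · exact hl.Lx
  · exact hl.LX
  · exact hl.Lv

theorem qdB (hl : LH l) (hq : LF l D q) (i : Fin 4) : dg (qd l q i) 1 ≤ l.B := by
  have h1 : q ∈ PK (⊥ : S.L) := fun m => (hq.const m).le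
  exact eval_mem (pderiv_mem h1 i) l.P bot_le (PB hl)

theorem line0 (hl : LH l) (hq : LF l D q) : lin (RingHom.id _) (bs l) (xi l) q = 0 := by
  apply poly_zero (A := l.iL) (lin_coeff (bsL hl) (xiL hl) fun m => (hq.const m).le.trans bot_le) hl.time
  rw [eval_lin]
  refine Eq.trans ?_ hq.zero
  show MvPolynomial.eval₂ (RingHom.id (QS S)) (fun k => bs l k + l.t * xi l k) q =
    MvPolynomial.eval₂ (RingHom.id (QS S)) l.P q
  congr 1
  funext k
  exact (P_eq hl k).symm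

theorem lineP (hl : LH l) (hq : LF l D q) : lin (RingHom.id _) l.P (xi l) q = 0 := by
  refine Eq.trans ?_ (lin_shift (line0 hl hq) l.t)
  congr 1
  funext k
  exact P_eq hl k

theorem gradP (hl : LH l) (hq : LF l D q) : qd l q 0 + l.x * qd l q 1 + l.X * qd l q 2 + l.v * qd l q 3 = 0 := by
  have h1 := lin_grad (lineP hl hq)
  rw [Fin.sum_univ_four] at h1
  have h2 : (1 : QS S) * qd l q 0 + l.x * qd l q 1 + l.X * qd l q 2 + l.v * qd l q 3 = 0 := h1
  rwa [one_mul] at h2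

/-- slopes of `z` -/
def w0 (l : LD S) (q : MvPolynomial (Fin 4) (QS S)) (iz : QS S) : QS S := -(iz * (qd l q 0 + l.k0 * qd l q 2))
def w1 (l : LD S) (q : MvPolynomial (Fin 4) (QS S)) (iz : QS S) : QS S := -(iz * (qd l q 1 + l.k1 * qd l q 2))
/-- the plane of the bush -/
def pe0 (l : LD S) (q : MvPolynomial (Fin 4) (QS S)) (iz : QS S) : Fin 4 → QS S := ![1, 0, l.k0, w0 l q iz]
def pn (l : LD S) (q : MvPolynomial (Fin 4) (QS S)) (iz : QS S) : Fin 4 → QS S := ![0, 1, l.k1, w1 l q iz]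

theorem xi_eq (hl : LH l) (hq : LF l D q) {iz : QS S} (hiz : iz * qd l q 3 = 1) (k : Fin 4) :
    xi l k = pe0 l q iz k + l.x * pn l q iz k := by
  have h1 := hl.hX
  have h2 := gradP hl hq
  fin_cases k
  · show (1 : QS S) = 1 + l.x * 0
    ring
  · show l.x = 0 + l.x * 1
    ring
  · show l.X = l.k0 + l.x * l.k1
    rw [h1]
    ring
  · show l.v = w0 l q iz + l.x * w1 l q iz
    unfold w0 w1
    rw [h1] at h2
    linear_combination iz * h2 - l.v * hiz

theorem planeP (hl : LH l) (hq : LF l D q) {iz : QS S} (hiz : iz * qd l q 3 = 1) :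
    PV (RingHom.id _) l.P (pe0 l q iz) (pn l q iz) q := by
  have m : ∀ {f : QS S}, dg f 1 ≤ l.B → f ∈ Kn S 1 le_rfl l.B := fun h => h
  have hizB : dg iz 1 ≤ l.B := (dg_inv_le hiz le_rfl).trans (qdB hl hq 3)
  have h0 : (0 : QS S) ∈ Kn S 1 le_rfl l.B := zero_mem _
  have h1 : (1 : QS S) ∈ Kn S 1 le_rfl l.B := one_mem _
  have hw0 : w0 l q iz ∈ Kn S 1 le_rfl l.B :=
    neg_mem (mul_mem (m hizB) (add_mem (m (qdB hl hq 0)) (mul_mem (m hl.Bk0) (m (qdB hl hq 2)))))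
  have hw1 : w1 l q iz ∈ Kn S 1 le_rfl l.B :=
    neg_mem (mul_mem (m hizB) (add_mem (m (qdB hl hq 1)) (mul_mem (m hl.Bk1) (m (qdB hl hq 2)))))
  apply plane (B := l.B) (x := l.x) hq.deg (PB hl)
  · intro k
    fin_cases k
    · exact h1
    · exact h0
    · exact hl.Bk0
    · exact hw0
  · intro k
    fin_cases k
    · exact h0
    · exact h1
    · exact hl.Bk1
    · exact hw1
  · exact fun m => (hq.const m).le.trans bot_le
  · exact hl.rich
  · refine Eq.trans ?_ (lineP hl hq)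
    congr 1
    funext k
    exact (xi_eq hl hq hiz k).symm

end main

end

end Pool.Agent.Helper79.LH
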