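import Pool.Agent.Helper3.LF.Sub
import Pool.Agent.Helper3.LF.Lin

/-! Polynomials of degree at most `D` which are small on `D + 1` segments through a point of a plane are small on the
plane; a factor `z - l` can be divided out; two hyperplanes on which a regular polynomial is small are far apart or
nearly equal (55b sect. 5). -/

set_option autoImplicit false

namespace Pool.Agent.Helper79.LH

open Finset MvPolynomial Pool.Agent.Helper3.LF

noncomputable section

variable {N : ℕ}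

/-- a polynomial of degree at most `D` in one variable, small on the nodes `a + i w`, `i ≤ D` -/
theorem lh_ext (D : ℕ) (f : Polynomial ℝ) (hf : f.natDegree ≤ D) (a w L A s : ℝ) (hw : 0 < w)
    (hs : ∀ i : ℕ, i ≤ D → |s - (a + i * w)| ≤ L) (hA : ∀ i : ℕ, i ≤ D → |f.eval (a + i * w)| ≤ A) :
    |f.eval s| ≤ (D + 1) * (L / w) ^ D * A := by
  refine lag_bound D f hf (fun i => a + i * w) w L A s hw ?_ hs hA
  intro i _ j _ hij
  have e1 : a + (i : ℝ) * w - (a + (j : ℝ) * w) = ((i : ℝ) - j) * w := by ring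
  rw [e1, abs_mul, abs_of_pos hw]
  have h1 : (1 : ℝ) ≤ |(i : ℝ) - j| := by
    have h2 : ((i : ℤ) - (j : ℤ)) ≠ 0 := by omega
    have h3 : (1 : ℤ) ≤ |(i : ℤ) - (j : ℤ)| := Int.one_le_abs h2
    have h4 : ((1 : ℤ) : ℝ) ≤ ((|(i : ℤ) - (j : ℤ)| : ℤ) : ℝ) := by exact_mod_cast h3
    rw [Int.cast_abs] at h4
    push_cast at h4
    exact h4
  nlinarith

/-- the constant of `lines_small` -/
def lhC (D : ℕ) : ℝ := ((D + 1) * (4 * (D + 1)) ^ D) ^ 2 * (D + 1)

theorem lhC_pos (D : ℕ) : 0 < lhC D := by unfold lhC; positivity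

/-- SMALL ON `D + 1` SEGMENTS THROUGH A POINT OF A PLANE: small on the plane -/
theorem lines_small (D : ℕ) (q : MvPolynomial (Fin N) ℝ) (hq : q.totalDegree ≤ D) (p e v : Fin N → ℝ) (r : ℕ → ℝ)
    (R δ ε : ℝ) (hδ : 0 < δ) (hr : ∀ i ≤ D, |r i| ≤ R) (hsep : ∀ i ≤ D, ∀ j ≤ D, i ≠ j → δ ≤ |r i - r j|)
    (h : ∀ i ≤ D, ∀ τ : ℝ, 1 / 2 ≤ τ → τ ≤ 1 → |eval (fun k => p k + τ * (e k + r i * v k)) q| ≤ ε)
    (τ σ : ℝ) (hτ : |τ| ≤ 1) (hσ : |σ| ≤ 1) :
    |eval (fun k => p k + τ * e k + σ * v k) q| ≤ lhC D * ((1 + R) / δ) ^ D * ε := by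
  have hD : (0 : ℝ) < D + 1 := by positivity
  have hε : 0 ≤ ε := (abs_nonneg _).trans (h 0 (Nat.zero_le _) 1 (by norm_num) le_rfl)
  have hR : 0 ≤ R := (abs_nonneg _).trans (hr 0 (Nat.zero_le _))
  -- step A
  set E1 : ℝ := (D + 1) * ((1 + R) / δ) ^ D * ε with hE1
  have hE1' : 0 ≤ E1 := by positivity
  have hA : ∀ τ σ : ℝ, 1 / 2 ≤ τ → τ ≤ 1 → |σ| ≤ 1 / 2 → |eval (fun k => p k + τ * e k + σ * v k) q| ≤ E1 := by
    intro τ σ h1 h2 h3
    have hτ0 : 0 < τ := by linarith
    have e1 : eval (fun k => p k + τ * e k + σ * v k) q =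
        (lin (fun k => p k + τ * e k) (fun k => τ * v k) q).eval (σ / τ) := by
      rw [eval_lin]
      congr 1
      congr 1
      funext k
      field_simp
    rw [e1]
    apply lag_bound D _ ((natDegree_lin _ _ _).trans hq) r δ (1 + R) ε (σ / τ) hδ hsep
    · intro i hi
      have h4 : |σ / τ| ≤ 1 := by
        rw [abs_div, abs_of_pos hτ0, div_le_one hτ0]
        linarith
      have h5 := abs_sub (σ / τ) (r i)
      have h6 := hr i hi
      linarith
    · intro i hi
      rw [eval_lin]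
      have h7 := h i hi τ h1 h2
      refine le_trans (le_of_eq ?_) h7
      congr 2
      congr 1
      funext k
      ring
  -- step B
  set E2 : ℝ := (D + 1) * (4 * (D + 1)) ^ D * E1 with hE2
  have hw : (0 : ℝ) < 1 / (2 * (D + 1)) := by positivity
  have hLw : (2 : ℝ) / (1 / (2 * (D + 1))) = 4 * (D + 1) := by field_simp; ring
  have hnod : ∀ i : ℕ, i ≤ D → 0 ≤ (i : ℝ) * (1 / (2 * (D + 1))) ∧ (i : ℝ) * (1 / (2 * (D + 1))) ≤ 1 / 2 := by
    intro i hi
    refine ⟨by positivity, ?_⟩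
    have h1 : (i : ℝ) ≤ D := by exact_mod_cast hi
    rw [mul_one_div, div_le_div_iff₀ (by positivity) (by norm_num)]
    linarith
  have hB : ∀ τ σ : ℝ, |τ| ≤ 1 → |σ| ≤ 1 / 2 → |eval (fun k => p k + τ * e k + σ * v k) q| ≤ E2 := by
    intro τ σ h1 h2
    have e1 : ∀ s : ℝ, eval (fun k => p k + s * e k + σ * v k) q =
        (lin (fun k => p k + σ * v k) e q).eval s := by
      intro s
      rw [eval_lin]
      congr 1
      congr 1
      funext k
      ring
    rw [e1, hE2, ← hLw]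
    apply lh_ext D _ ((natDegree_lin _ _ _).trans hq) (1 / 2) _ 2 E1 τ hw
    · intro i hi
      obtain ⟨a1, a2⟩ := hnod i hi
      have h3 := abs_le.mp h1
      rw [abs_le]
      constructor <;> linarith
    · intro i hi
      obtain ⟨a1, a2⟩ := hnod i hi
      rw [← e1]
      exact hA _ _ (by linarith) (by linarith) h2
  -- step C
  have e1 : ∀ s : ℝ, eval (fun k => p k + τ * e k + s * v k) q =
      (lin (fun k => p k + τ * e k) v q).eval s := by
    intro s
    rw [eval_lin]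
  have hC : |eval (fun k => p k + τ * e k + σ * v k) q| ≤ (D + 1) * (4 * (D + 1)) ^ D * E2 := by
    rw [e1, ← hLw]
    apply lh_ext D _ ((natDegree_lin _ _ _).trans hq) 0 _ 2 E2 σ hw
    · intro i hi
      obtain ⟨a1, a2⟩ := hnod i hi
      have h3 := abs_le.mp hσ
      rw [abs_le]
      constructor <;> linarith
    · intro i hi
      obtain ⟨a1, a2⟩ := hnod i hi
      rw [← e1]
      apply hB _ _ hτ
      rw [zero_add, abs_of_nonneg a1]
      exact a2
  refine hC.trans (le_of_eq ?_)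
  rw [hE2, hE1, lhC]
  ring

end

end Pool.Agent.Helper79.LH
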